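import Mathlib

set_option autoImplicit false

namespace Pool.Agent.H77.AK

open Finset

/-- The sum of Q^i floor(e/Q^i), 1 <= i < k. -/
def bmap (k Q e : ℕ) : ℕ := ∑ i ∈ Finset.Ico 1 k, Q ^ i * (e / Q ^ i)

theorem bmap_mono (k Q : ℕ) : Monotone (bmap k Q) := by
  intro e e' h
  unfold bmap
  apply Finset.sum_le_sum
  intro i _
  exact Nat.mul_le_mul_left _ (Nat.div_le_div_right h)

theorem bmap_le (k Q e : ℕ) : bmap k Q e ≤ k * e := by
  unfold bmap
  calc ∑ i ∈ Finset.Ico 1 k, Q ^ i * (e / Q ^ i) ≤ ∑ i ∈ Finset.Ico 1 k, e := by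
        apply Finset.sum_le_sum
        intro i _
        exact Nat.mul_div_le e (Q ^ i)
    _ = (k - 1) * e := by rw [Finset.sum_const, Nat.card_Ico, smul_eq_mul]
    _ ≤ k * e := Nat.mul_le_mul_right _ (Nat.sub_le k 1)

/-- Erasing the digit of index j changes bmap by j times the erased part. -/
theorem bmap_erase (k Q e j : ℕ) (hQ : 1 ≤ Q) (hj : j < k) :
    bmap k Q e = bmap k Q (e % Q ^ j + Q ^ (j + 1) * (e / Q ^ (j + 1))) +
      j * (Q ^ j * (e / Q ^ j % Q)) := by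
  have hQp : ∀ i, 0 < Q ^ i := fun i => Nat.pow_pos hQ
  set e' := e % Q ^ j + Q ^ (j + 1) * (e / Q ^ (j + 1)) with he'
  have hdec : e = e' + Q ^ j * (e / Q ^ j % Q) := by
    have h1 := Nat.div_add_mod e (Q ^ j)
    have h2 := Nat.div_add_mod (e / Q ^ j) Q
    have h3 : e / Q ^ j / Q = e / Q ^ (j + 1) := by rw [Nat.div_div_eq_div_mul, pow_succ]
    rw [h3] at h2
    have h4 : e = Q ^ j * (Q * (e / Q ^ (j + 1)) + e / Q ^ j % Q) + e % Q ^ j := by
      rw [h2]; exact h1.symm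
    rw [he']
    conv_lhs => rw [h4]
    rw [pow_succ]
    ring
  have hlow : ∀ i ≤ j, Q ^ i * (e / Q ^ i) = Q ^ i * (e' / Q ^ i) + Q ^ j * (e / Q ^ j % Q) := by
    intro i hi
    have h1 : Q ^ j = Q ^ i * Q ^ (j - i) := by rw [← pow_add]; congr 1; omega
    have h2 : e / Q ^ i = e' / Q ^ i + Q ^ (j - i) * (e / Q ^ j % Q) := by
      conv_lhs => rw [hdec, h1, Nat.mul_assoc]
      rw [← h1]
      exact Nat.add_mul_div_left _ _ (hQp i)
    rw [h2, Nat.mul_add, ← Nat.mul_assoc, ← h1]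
  have hhigh : ∀ i, j < i → e / Q ^ i = e' / Q ^ i := by
    intro i hi
    have h1 : Q ^ i = Q ^ (j + 1) * Q ^ (i - (j + 1)) := by rw [← pow_add]; congr 1; omega
    have h2 : e' / Q ^ (j + 1) = e / Q ^ (j + 1) := by
      rw [he', Nat.add_mul_div_left _ _ (hQp (j + 1))]
      have : e % Q ^ j < Q ^ (j + 1) :=
        lt_of_lt_of_le (Nat.mod_lt _ (hQp j)) (Nat.pow_le_pow_right hQ (Nat.le_succ j))
      rw [Nat.div_eq_of_lt this, Nat.zero_add]
    rw [h1, ← Nat.div_div_eq_div_mul, ← Nat.div_div_eq_div_mul, h2]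
  unfold bmap
  have hsplit : ∀ g : ℕ → ℕ, ∑ i ∈ Finset.Ico 1 k, g i =
      ∑ i ∈ Finset.Ico 1 (j + 1), g i + ∑ i ∈ Finset.Ico (j + 1) k, g i := fun g =>
    (Finset.sum_Ico_consecutive g (by omega) (by omega)).symm
  rw [hsplit, hsplit]
  have h1 : ∑ i ∈ Finset.Ico 1 (j + 1), Q ^ i * (e / Q ^ i) =
      ∑ i ∈ Finset.Ico 1 (j + 1), Q ^ i * (e' / Q ^ i) + j * (Q ^ j * (e / Q ^ j % Q)) := by
    rw [Finset.sum_congr rfl (fun i hi => hlow i (Nat.lt_succ_iff.1 (Finset.mem_Ico.1 hi).2)),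
      Finset.sum_add_distrib, Finset.sum_const, Nat.card_Ico, smul_eq_mul, Nat.succ_sub_one]
  have h2 : ∑ i ∈ Finset.Ico (j + 1) k, Q ^ i * (e / Q ^ i) =
      ∑ i ∈ Finset.Ico (j + 1) k, Q ^ i * (e' / Q ^ i) :=
    Finset.sum_congr rfl (fun i hi => by rw [hhigh i (Finset.mem_Ico.1 hi).1])
  rw [h1, h2]
  ring

/-- The set of the example. -/
def exSet (k Q T : ℕ) : Finset ℕ :=
  (Finset.range k).biUnion (fun j =>
    ((Finset.range (Q ^ j)) ×ˢ (Finset.range (Q ^ (k - 1 - j)))).image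
      (fun xy => T - bmap k Q (xy.1 + Q ^ (j + 1) * xy.2) +
        j * (xy.1 + Q ^ (j + 1) * xy.2 + 1)))

theorem exSet_card (k Q T : ℕ) : (exSet k Q T).card ≤ k * Q ^ (k - 1) := by
  unfold exSet
  refine Finset.card_biUnion_le.trans ?_
  calc _ ≤ ∑ j ∈ Finset.range k, Q ^ (k - 1) := by
        apply Finset.sum_le_sum
        intro j hj
        refine Finset.card_image_le.trans ?_
        rw [Finset.card_product, Finset.card_range, Finset.card_range, ← pow_add]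
        have := Finset.mem_range.1 hj
        have e : j + (k - 1 - j) = k - 1 := by omega
        rw [e]
    _ = k * Q ^ (k - 1) := by rw [Finset.sum_const, Finset.card_range, smul_eq_mul]

theorem exSet_mem (k Q N : ℕ) (hQ : 1 ≤ Q) (hN : N ≤ Q ^ k) (d : ℕ) (hd : d ∈ Finset.Icc 1 N)
    (j : ℕ) (hj : j ∈ Finset.range k) :
    (k * N - bmap k Q (d - 1)) + j * d ∈ exSet k Q (k * N) := by
  obtain ⟨h1, h2⟩ := Finset.mem_Icc.1 hd
  have hj' := Finset.mem_range.1 hj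
  set e := d - 1 with he
  have hde : d = e + 1 := by omega
  have heN : e < N := by omega
  unfold exSet
  refine Finset.mem_biUnion.2 ⟨j, hj, Finset.mem_image.2 ⟨(e % Q ^ j, e / Q ^ (j + 1)), ?_, ?_⟩⟩
  · refine Finset.mem_product.2 ⟨Finset.mem_range.2 (Nat.mod_lt _ (Nat.pow_pos hQ)),
      Finset.mem_range.2 ?_⟩
    rw [Nat.div_lt_iff_lt_mul (Nat.pow_pos hQ), ← pow_add]
    have e1 : k - 1 - j + (j + 1) = k := by omega
    rw [e1]
    omega
  · show k * N - bmap k Q (e % Q ^ j + Q ^ (j + 1) * (e / Q ^ (j + 1))) +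
        j * (e % Q ^ j + Q ^ (j + 1) * (e / Q ^ (j + 1)) + 1) = k * N - bmap k Q e + j * d
    have h3 := bmap_erase k Q e j hQ hj'
    have h4 : bmap k Q e ≤ k * N := (bmap_le k Q e).trans (Nat.mul_le_mul_left _ heN.le)
    set e' := e % Q ^ j + Q ^ (j + 1) * (e / Q ^ (j + 1)) with he'
    have hdec : e = e' + Q ^ j * (e / Q ^ j % Q) := by
      have h1 := Nat.div_add_mod e (Q ^ j)
      have h2 := Nat.div_add_mod (e / Q ^ j) Q
      have h3 : e / Q ^ j / Q = e / Q ^ (j + 1) := by rw [Nat.div_div_eq_div_mul, pow_succ]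
      rw [h3] at h2
      have h4 : e = Q ^ j * (Q * (e / Q ^ (j + 1)) + e / Q ^ j % Q) + e % Q ^ j := by
        rw [h2]; exact h1.symm
      rw [he']
      conv_lhs => rw [h4]
      rw [pow_succ]
      ring
    have h5 : j * d = j * (e' + 1) + j * (Q ^ j * (e / Q ^ j % Q)) := by
      rw [hde]
      conv_lhs => rw [hdec]
      ring
    rw [h5]
    omega

/-- For monotone start maps the exponent 1 - 1/k is best possible. -/
theorem example_upper (k : ℕ) (hk : 1 ≤ k) : ∃ c : ℝ, ∀ N : ℕ, 1 ≤ N →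
    ∃ (a : ℕ → ℕ) (A : Finset ℕ), Antitone a ∧
    (∀ d ∈ Finset.Icc 1 N, ∀ j ∈ Finset.range k, a d + j * d ∈ A) ∧
    (A.card : ℝ) ≤ c * (N : ℝ) ^ (1 - 1 / (k : ℝ)) := by
  refine ⟨k * 2 ^ (k - 1), ?_⟩
  intro N hN
  have hkR : (1 : ℝ) ≤ k := by exact_mod_cast hk
  have hNR : (1 : ℝ) ≤ N := by exact_mod_cast hN
  set x : ℝ := (N : ℝ) ^ (1 / (k : ℝ)) with hx
  have hx1 : 1 ≤ x := Real.one_le_rpow hNR (by positivity)
  set Q : ℕ := ⌈x⌉₊ with hQ
  have hQ1 : 1 ≤ Q := Nat.one_le_iff_ne_zero.2 (by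
    rw [hQ]
    intro h0
    rw [Nat.ceil_eq_zero] at h0
    linarith)
  have hxk : x ^ k = N := by
    rw [hx, ← Real.rpow_natCast, ← Real.rpow_mul (by positivity)]
    rw [one_div, inv_mul_cancel₀ (by positivity), Real.rpow_one]
  have hNQ : N ≤ Q ^ k := by
    have h1 : (N : ℝ) ≤ (Q : ℝ) ^ k := by
      rw [← hxk]
      exact pow_le_pow_left₀ (by linarith) (Nat.le_ceil x) k
    exact_mod_cast h1
  have hQ2 : (Q : ℝ) ≤ 2 * x := by
    have := (Nat.ceil_lt_add_one (by linarith : 0 ≤ x)).le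
    linarith
  refine ⟨fun d => k * N - bmap k Q (d - 1), exSet k Q (k * N), ?_, ?_, ?_⟩
  · intro d d' hdd
    exact Nat.sub_le_sub_left (bmap_mono k Q (Nat.sub_le_sub_right hdd 1)) _
  · intro d hd j hj
    exact exSet_mem k Q N hQ1 hNQ d hd j hj
  · have h1 : ((exSet k Q (k * N)).card : ℝ) ≤ (k : ℝ) * (Q : ℝ) ^ (k - 1) := by
      exact_mod_cast exSet_card k Q (k * N)
    refine h1.trans ?_
    have h2 : (N : ℝ) ^ (1 - 1 / (k : ℝ)) = x ^ (k - 1) := by
      rw [hx, ← Real.rpow_natCast, ← Real.rpow_mul (by positivity), Nat.cast_sub hk]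
      congr 1
      field_simp
      push_cast
      ring
    rw [h2]
    calc (k : ℝ) * (Q : ℝ) ^ (k - 1) ≤ k * (2 * x) ^ (k - 1) := by
          apply mul_le_mul_of_nonneg_left _ (by linarith)
          exact pow_le_pow_left₀ (Nat.cast_nonneg _) hQ2 _
      _ = k * 2 ^ (k - 1) * x ^ (k - 1) := by rw [mul_pow]; ring

end Pool.Agent.H77.AK
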