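import Mathlib

set_option autoImplicit false

namespace Pool.Agent.H77.AK

open Finset

/-- Jensen for the logarithm, with unnormalised weights. -/
theorem jensen_log {ι : Type*} (S : Finset ι) (w x : ι → ℝ) (hS : S.Nonempty)
    (hw : ∀ s ∈ S, 0 < w s) (hx : ∀ s ∈ S, 0 < x s) :
    ∑ s ∈ S, w s * (Real.log (x s) - Real.log (w s) + Real.log (∑ t ∈ S, w t)) ≤
      (∑ s ∈ S, w s) * Real.log (∑ s ∈ S, x s) := by
  set W := ∑ t ∈ S, w t with hW
  have hWpos : 0 < W := Finset.sum_pos hw hS
  have h := (strictConcaveOn_log_Ioi.concaveOn).le_map_sum (t := S) (w := fun s => w s / W)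
    (p := fun s => x s * W / w s) (fun s hs => (div_pos (hw s hs) hWpos).le)
    (by rw [← Finset.sum_div]; exact div_self hWpos.ne')
    (fun s hs => by
      have := hw s hs
      have := hx s hs
      simp only [Set.mem_Ioi]
      positivity)
  have e1 : ∑ s ∈ S, (w s / W) • (x s * W / w s) = ∑ s ∈ S, x s := by
    apply Finset.sum_congr rfl
    intro s hs
    have := (hw s hs).ne'
    rw [smul_eq_mul]
    field_simp
  rw [e1] at h
  have e2 : ∑ s ∈ S, (w s / W) • Real.log (x s * W / w s) =
      (∑ s ∈ S, w s * (Real.log (x s) - Real.log (w s) + Real.log W)) / W := by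
    rw [Finset.sum_div]
    apply Finset.sum_congr rfl
    intro s hs
    have h1 := (hw s hs).ne'
    have h2 := (hx s hs).ne'
    rw [smul_eq_mul, Real.log_div (mul_ne_zero h2 hWpos.ne') h1, Real.log_mul h2 hWpos.ne']
    field_simp
    ring
  rw [e2, div_le_iff₀ hWpos] at h
  linarith [h]

/-- The mean of logarithms is at most the logarithm of the mean. -/
theorem mean_log {ι : Type*} (S : Finset ι) (y : ι → ℝ) (hS : S.Nonempty)
    (hy : ∀ s ∈ S, 0 < y s) :
    ∑ s ∈ S, Real.log (y s) ≤ (S.card : ℝ) * Real.log ((∑ s ∈ S, y s) / S.card) := by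
  have hc : (0 : ℝ) < S.card := by exact_mod_cast hS.card_pos
  have h := (strictConcaveOn_log_Ioi.concaveOn).le_map_sum (t := S)
    (w := fun _ => 1 / (S.card : ℝ)) (p := y) (fun s _ => by positivity)
    (by rw [Finset.sum_const, nsmul_eq_mul]; field_simp) (fun s hs => hy s hs)
  simp only [smul_eq_mul] at h
  rw [← Finset.mul_sum, ← Finset.mul_sum] at h
  have e : 1 / (S.card : ℝ) * ∑ s ∈ S, y s = (∑ s ∈ S, y s) / S.card := by ring
  rw [e] at h
  calc ∑ s ∈ S, Real.log (y s) = (S.card : ℝ) * (1 / (S.card : ℝ) * ∑ s ∈ S, Real.log (y s)) := by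
        field_simp
    _ ≤ _ := mul_le_mul_of_nonneg_left h hc.le

/-- A set that contains pieces lying over residues has at least the sum of the sizes of the
pieces, each divided by the number of pieces over the same residue. -/
theorem split_card {σ ρ : Type*} [DecidableEq ρ] (S : Finset σ) (X : Finset ℕ)
    (Y : σ → Finset ℕ) (r : ℕ → ρ) (q : σ → ρ) (hY : ∀ s ∈ S, Y s ⊆ X)
    (hr : ∀ s ∈ S, ∀ x ∈ Y s, r x = q s) :
    ∑ s ∈ S, ((Y s).card : ℝ) / ((S.filter (fun s' => q s' = q s)).card : ℝ) ≤ X.card := by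
  classical
  have h1 : ∑ s ∈ S, ((Y s).card : ℝ) / ((S.filter (fun s' => q s' = q s)).card : ℝ) =
      ∑ t ∈ S.image q, ∑ s ∈ S.filter (fun s => q s = t),
        ((Y s).card : ℝ) / ((S.filter (fun s' => q s' = q s)).card : ℝ) :=
    (Finset.sum_fiberwise_of_maps_to (fun s hs => Finset.mem_image_of_mem q hs) _).symm
  have h2 : ∑ t ∈ S.image q, ((X.filter (fun x => r x = t)).card : ℝ) ≤ X.card := by
    have : ∑ t ∈ S.image q, (X.filter (fun x => r x = t)).card ≤ X.card := by
      rw [← Finset.card_biUnion]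
      · apply Finset.card_le_card
        intro x hx
        simp only [Finset.mem_biUnion, Finset.mem_filter] at hx
        obtain ⟨_, _, h, _⟩ := hx
        exact h
      · intro t _ t' _ htt'
        apply Finset.disjoint_left.2
        intro x hx hx'
        exact htt' ((Finset.mem_filter.1 hx).2.symm.trans (Finset.mem_filter.1 hx').2)
    exact_mod_cast this
  refine le_trans ?_ h2
  rw [h1]
  apply Finset.sum_le_sum
  intro t ht
  obtain ⟨s0, hs0, hs0t⟩ := Finset.mem_image.1 ht
  have hpos : 0 < (S.filter (fun s => q s = t)).card :=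
    Finset.card_pos.2 ⟨s0, Finset.mem_filter.2 ⟨hs0, hs0t⟩⟩
  have hposR : (0 : ℝ) < ((S.filter (fun s => q s = t)).card : ℝ) := by exact_mod_cast hpos
  have h3 : ∀ s ∈ S.filter (fun s => q s = t),
      ((Y s).card : ℝ) / ((S.filter (fun s' => q s' = q s)).card : ℝ) ≤
        ((X.filter (fun x => r x = t)).card : ℝ) / ((S.filter (fun s' => q s' = t)).card : ℝ) := by
    intro s hs
    obtain ⟨hsS, hst⟩ := Finset.mem_filter.1 hs
    rw [hst]
    apply div_le_div_of_nonneg_right _ hposR.le
    have : (Y s).card ≤ (X.filter (fun x => r x = t)).card := by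
      apply Finset.card_le_card
      intro x hx
      exact Finset.mem_filter.2 ⟨hY s hsS hx, (hr s hsS x hx).trans hst⟩
    exact_mod_cast this
  refine (Finset.sum_le_sum h3).trans ?_
  rw [Finset.sum_const, nsmul_eq_mul]
  rw [mul_div_cancel₀ _ hposR.ne']

end Pool.Agent.H77.AK
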