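import Pool.Agent.H77.AK.NSA

set_option autoImplicit false

namespace Pool.Agent.H77.AK

open Finset

/-- The residue class of the pair (a d, d) modulo m. -/
def cls (a : ℕ → ℕ) (m d : ℕ) : ℕ × ℕ := (a d % m, d % m)

/-- A set of numbers below k that are all congruent modulo p has at most ceil(k/p) elements. -/
theorem card_le_ceil (k p : ℕ) (hp : 0 < p) (J : Finset ℕ) (hJ : ∀ j ∈ J, j < k)
    (hc : ∀ j ∈ J, ∀ j' ∈ J, j ≡ j' [MOD p]) : J.card ≤ ⌈(k : ℝ) / p⌉₊ := by
  have h : (J.image (fun j => j / p)).card = J.card := by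
    apply Finset.card_image_of_injOn
    intro j hj j' hj' hjj'
    have h1 := hc j hj j' hj'
    have h2 : j / p = j' / p := hjj'
    have h3 : j % p = j' % p := h1
    rw [← Nat.div_add_mod j p, ← Nat.div_add_mod j' p, h2, h3]
  rw [← h]
  calc (J.image (fun j => j / p)).card ≤ (Finset.range ⌈(k : ℝ) / p⌉₊).card := by
        apply Finset.card_le_card
        intro t ht
        obtain ⟨j, hj, rfl⟩ := Finset.mem_image.1 ht
        rw [Finset.mem_range, Nat.lt_ceil, lt_div_iff₀ (by exact_mod_cast hp)]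
        have h1 : j / p * p ≤ j := Nat.div_mul_le_self j p
        have h2 : j / p * p < k := lt_of_le_of_lt h1 (hJ j hj)
        exact_mod_cast h2
    _ = ⌈(k : ℝ) / p⌉₊ := Finset.card_range _

/-- Two different classes modulo m p inside one class modulo m are seen as equal by at most
ceil(k/p) of the slopes j < k. -/
theorem count_slopes (k p m : ℕ) (hp : p.Prime) (hm : 0 < m) (s s' : ℕ × ℕ) (hne : s ≠ s')
    (h1 : s.1 < m * p) (h2 : s.2 < m * p) (h1' : s'.1 < m * p) (h2' : s'.2 < m * p)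
    (hd : s'.2 ≡ s.2 [MOD m]) :
    ((Finset.range k).filter
      (fun j => (s'.1 + j * s'.2) % (m * p) = (s.1 + j * s.2) % (m * p))).card ≤
      ⌈(k : ℝ) / p⌉₊ := by
  apply card_le_ceil k p hp.pos
  · intro j hj
    exact Finset.mem_range.1 (Finset.mem_filter.1 hj).1
  · intro j hj j' hj'
    have e1 : s'.1 + j * s'.2 ≡ s.1 + j * s.2 [MOD (m * p)] := (Finset.mem_filter.1 hj).2
    have e2 : s'.1 + j' * s'.2 ≡ s.1 + j' * s.2 [MOD (m * p)] := (Finset.mem_filter.1 hj').2
    have f1 := (Nat.modEq_iff_dvd.1 e1)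
    have f2 := (Nat.modEq_iff_dvd.1 e2)
    have f3 := (Nat.modEq_iff_dvd.1 hd)
    push_cast at f1 f2 f3
    obtain ⟨δ, hδ⟩ := f3
    have f4 : ((m : ℤ) * p) ∣ ((j : ℤ) - j') * ((s.2 : ℤ) - s'.2) := by
      have := dvd_sub f1 f2
      have e : ((s.1 : ℤ) + j * s.2 - (s'.1 + j * s'.2)) - (s.1 + j' * s.2 - (s'.1 + j' * s'.2)) =
          ((j : ℤ) - j') * ((s.2 : ℤ) - s'.2) := by ring
      rwa [e] at this
    rw [hδ] at f4
    have f5 : (m : ℤ) * p ∣ (m : ℤ) * (((j : ℤ) - j') * δ) := by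
      have e : (m : ℤ) * (((j : ℤ) - j') * δ) = ((j : ℤ) - j') * (m * δ) := by ring
      rwa [e]
    have hm' : (m : ℤ) ≠ 0 := by exact_mod_cast hm.ne'
    have f6 : (p : ℤ) ∣ ((j : ℤ) - j') * δ := (mul_dvd_mul_iff_left hm').1 f5
    have hpz : Prime (p : ℤ) := Nat.prime_iff_prime_int.1 hp
    rcases hpz.dvd_or_dvd f6 with g | g
    · rw [Nat.modEq_iff_dvd]
      have := (dvd_neg).2 g
      have e : -((j : ℤ) - j') = (j' : ℤ) - j := by ring
      rwa [e] at this
    · exfalso
      apply hne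
      obtain ⟨ε, hε⟩ := g
      have hs2 : s.2 = s'.2 := by
        have : s'.2 ≡ s.2 [MOD (m * p)] := by
          rw [Nat.modEq_iff_dvd]
          refine ⟨ε, ?_⟩
          rw [hδ, hε]
          push_cast
          ring
        exact (Nat.ModEq.eq_of_lt_of_lt this h2' h2).symm
      have hs1 : s.1 = s'.1 := by
        have : s'.1 ≡ s.1 [MOD (m * p)] := by
          rw [Nat.modEq_iff_dvd]
          have e : (s.1 : ℤ) + j * s.2 - (s'.1 + j * s'.2) = (s.1 : ℤ) - s'.1 := by
            rw [hs2]; ring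
          rw [e] at f1
          exact_mod_cast f1
        exact (Nat.ModEq.eq_of_lt_of_lt this h1' h1).symm
      exact Prod.ext hs1 hs2

end Pool.Agent.H77.AK
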