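import Pool.Agent.H77.AK.NSB

set_option autoImplicit false

namespace Pool.Agent.H77.AK

open Finset

/-- The set of the values a d + j d, d in G. -/
def val (a : ℕ → ℕ) (j : ℕ) (G : Finset ℕ) : Finset ℕ := G.image (fun d => a d + j * d)

/-- The members of G whose class modulo m is s. -/
def part (a : ℕ → ℕ) (m : ℕ) (G : Finset ℕ) (s : ℕ × ℕ) : Finset ℕ :=
  G.filter (fun d => cls a m d = s)

theorem part_nonempty {a : ℕ → ℕ} {m : ℕ} {G : Finset ℕ} {s : ℕ × ℕ}
    (hs : s ∈ G.image (cls a m)) : (part a m G s).Nonempty := by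
  obtain ⟨d, hd, rfl⟩ := Finset.mem_image.1 hs
  exact ⟨d, Finset.mem_filter.2 ⟨hd, rfl⟩⟩

theorem val_nonempty {a : ℕ → ℕ} {j : ℕ} {G : Finset ℕ} (hG : G.Nonempty) :
    (val a j G).Nonempty := hG.image _

theorem sum_part (a : ℕ → ℕ) (m : ℕ) (G : Finset ℕ) :
    ∑ s ∈ G.image (cls a m), ((part a m G s).card : ℝ) = (G.card : ℝ) := by
  have := Finset.card_eq_sum_card_fiberwise
    (f := cls a m) (s := G) (t := G.image (cls a m))
    (fun d hd => Finset.mem_image_of_mem _ hd)
  unfold part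
  exact_mod_cast this.symm

theorem sum_mult (k p m : ℕ) (hp : p.Prime) (hm : 0 < m) (a : ℕ → ℕ)
    (G : Finset ℕ) (hsame : ∀ d ∈ G, ∀ d' ∈ G, cls a m d = cls a m d')
    (s : ℕ × ℕ) (hs : s ∈ G.image (cls a (m * p))) :
    ∑ j ∈ Finset.range k, ((((G.image (cls a (m * p))).filter
      (fun s' => (s'.1 + j * s'.2) % (m * p) = (s.1 + j * s.2) % (m * p))).card : ℕ) : ℝ) ≤
      k + (((G.image (cls a (m * p))).card : ℝ) - 1) * ⌈(k : ℝ) / p⌉₊ := by
  classical
  set S := G.image (cls a (m * p)) with hS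
  have hmp : 0 < m * p := Nat.mul_pos hm hp.pos
  have e1 : ∑ j ∈ Finset.range k, (S.filter
      (fun s' => (s'.1 + j * s'.2) % (m * p) = (s.1 + j * s.2) % (m * p))).card =
      ∑ s' ∈ S, ((Finset.range k).filter
        (fun j => (s'.1 + j * s'.2) % (m * p) = (s.1 + j * s.2) % (m * p))).card := by
    simp only [Finset.card_filter]
    exact Finset.sum_comm
  have hprop : ∀ s' ∈ S, s'.1 < m * p ∧ s'.2 < m * p ∧ s'.2 ≡ s.2 [MOD m] := by
    intro s' hs'
    obtain ⟨d', hd', rfl⟩ := Finset.mem_image.1 hs'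
    obtain ⟨d, hd, rfl⟩ := Finset.mem_image.1 hs
    refine ⟨Nat.mod_lt _ hmp, Nat.mod_lt _ hmp, ?_⟩
    have h1 : (cls a m d').2 = (cls a m d).2 := by rw [hsame d' hd' d hd]
    have h2 : d' ≡ d [MOD m] := h1
    show d' % (m * p) % m = d % (m * p) % m
    rw [Nat.mod_mod_of_dvd _ (Dvd.intro _ rfl), Nat.mod_mod_of_dvd _ (Dvd.intro _ rfl)]
    exact h2
  have e2 : ∑ s' ∈ S, ((Finset.range k).filter
        (fun j => (s'.1 + j * s'.2) % (m * p) = (s.1 + j * s.2) % (m * p))).card ≤
      k + (S.card - 1) * ⌈(k : ℝ) / p⌉₊ := by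
    rw [← Finset.add_sum_erase S _ hs]
    apply Nat.add_le_add
    · calc _ ≤ (Finset.range k).card := Finset.card_filter_le _ _
        _ = k := Finset.card_range k
    · rw [← Finset.card_erase_of_mem hs, ← smul_eq_mul]
      apply Finset.sum_le_card_nsmul
      intro s' hs'
      obtain ⟨hne, hs'S⟩ := Finset.mem_erase.1 hs'
      obtain ⟨g1, g2, g3⟩ := hprop s' hs'S
      obtain ⟨g4, g5, _⟩ := hprop s hs
      exact count_slopes k p m hp hm s s' hne.symm g4 g5 g1 g2 g3
  have hSpos : 1 ≤ S.card := Finset.card_pos.2 ⟨s, hs⟩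
  have e3 : ((∑ j ∈ Finset.range k, (S.filter
      (fun s' => (s'.1 + j * s'.2) % (m * p) = (s.1 + j * s.2) % (m * p))).card : ℕ) : ℝ) ≤
      ((k + (S.card - 1) * ⌈(k : ℝ) / p⌉₊ : ℕ) : ℝ) := by
    exact_mod_cast (e1 ▸ e2)
  push_cast [Nat.cast_sub hSpos] at e3
  exact e3

theorem step (k p m : ℕ) (hk : 1 ≤ k) (hp : p.Prime) (hm : 0 < m) (a : ℕ → ℕ)
    (G : Finset ℕ) (hG : G.Nonempty) (hsame : ∀ d ∈ G, ∀ d' ∈ G, cls a m d = cls a m d') :
    (∑ s ∈ G.image (cls a (m * p)), ((part a (m * p) G s).card : ℝ) *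
        ∑ j ∈ Finset.range k, Real.log ((val a j (part a (m * p) G s)).card : ℝ))
      - k * G.card * Real.log (1 + (((G.image (cls a (m * p))).card : ℝ) - 1) *
          (⌈(k : ℝ) / p⌉₊ / k))
      - k * (∑ s ∈ G.image (cls a (m * p)), ((part a (m * p) G s).card : ℝ) *
          Real.log ((part a (m * p) G s).card : ℝ))
      + k * (G.card * Real.log (G.card : ℝ)) ≤
    (G.card : ℝ) * ∑ j ∈ Finset.range k, Real.log ((val a j G).card : ℝ) := by
  classical
  set S := G.image (cls a (m * p)) with hS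
  have hSne : S.Nonempty := hG.image _
  have hkR : (0 : ℝ) < k := by exact_mod_cast hk
  set mult : ℕ → ℕ × ℕ → ℕ := fun j s => (S.filter
      (fun s' => (s'.1 + j * s'.2) % (m * p) = (s.1 + j * s.2) % (m * p))).card with hmult
  have hmpos : ∀ j, ∀ s ∈ S, 0 < mult j s := fun j s hs =>
    Finset.card_pos.2 ⟨s, Finset.mem_filter.2 ⟨hs, rfl⟩⟩
  have hw : ∀ s ∈ S, (0 : ℝ) < ((part a (m * p) G s).card : ℝ) := fun s hs => by
    exact_mod_cast Finset.card_pos.2 (part_nonempty hs)
  have hv : ∀ j, ∀ s ∈ S, (0 : ℝ) < ((val a j (part a (m * p) G s)).card : ℝ) := fun j s hs => by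
    exact_mod_cast Finset.card_pos.2 (val_nonempty (part_nonempty hs))
  have hsum : ∑ s ∈ S, ((part a (m * p) G s).card : ℝ) = (G.card : ℝ) := sum_part a (m * p) G
  -- one slope
  have h1 : ∀ j, ∑ s ∈ S, ((part a (m * p) G s).card : ℝ) *
      (Real.log ((val a j (part a (m * p) G s)).card : ℝ) - Real.log (mult j s : ℝ)
        - Real.log ((part a (m * p) G s).card : ℝ) + Real.log (G.card : ℝ)) ≤
      (G.card : ℝ) * Real.log ((val a j G).card : ℝ) := by
    intro j
    have hsp := split_card S (val a j G) (fun s => val a j (part a (m * p) G s))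
      (fun x => x % (m * p)) (fun s => (s.1 + j * s.2) % (m * p))
      (by
        intro s _
        exact Finset.image_subset_image (Finset.filter_subset _ _))
      (by
        intro s _ x hx
        obtain ⟨d, hd, rfl⟩ := Finset.mem_image.1 hx
        obtain ⟨_, hds⟩ := Finset.mem_filter.1 hd
        rw [← hds]
        simp only [cls]
        rw [Nat.add_mod, Nat.mul_mod]
        conv_rhs => rw [Nat.add_mod, Nat.mul_mod, Nat.mod_mod, Nat.mod_mod])
    have hj := jensen_log S (fun s => ((part a (m * p) G s).card : ℝ))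
      (fun s => ((val a j (part a (m * p) G s)).card : ℝ) / (mult j s : ℝ)) hSne hw
      (fun s hs => div_pos (hv j s hs) (by exact_mod_cast hmpos j s hs))
    rw [hsum] at hj
    have hpos : 0 < ∑ s ∈ S, ((val a j (part a (m * p) G s)).card : ℝ) / (mult j s : ℝ) :=
      Finset.sum_pos (fun s hs => div_pos (hv j s hs) (by exact_mod_cast hmpos j s hs)) hSne
    have hlog := Real.log_le_log hpos hsp
    have hGc : (0 : ℝ) ≤ (G.card : ℝ) := Nat.cast_nonneg _
    refine le_trans (le_of_eq ?_) (hj.trans (mul_le_mul_of_nonneg_left hlog hGc))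
    apply Finset.sum_congr rfl
    intro s hs
    rw [Real.log_div (hv j s hs).ne' (by exact_mod_cast (hmpos j s hs).ne')]
  -- sum over the slopes
  have h2 := Finset.sum_le_sum (fun j (_ : j ∈ Finset.range k) => h1 j)
  rw [← Finset.mul_sum, Finset.sum_comm] at h2
  -- the multiplicities
  have h3 : ∀ s ∈ S, ∑ j ∈ Finset.range k, Real.log (mult j s : ℝ) ≤
      k * Real.log (1 + ((S.card : ℝ) - 1) * (⌈(k : ℝ) / p⌉₊ / k)) := by
    intro s hs
    have hr : (Finset.range k).Nonempty := Finset.nonempty_range_iff.2 (by omega)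
    have := mean_log (Finset.range k) (fun j => (mult j s : ℝ)) hr
      (fun j _ => by exact_mod_cast hmpos j s hs)
    rw [Finset.card_range] at this
    refine this.trans (mul_le_mul_of_nonneg_left ?_ hkR.le)
    apply Real.log_le_log
    · apply div_pos _ hkR
      exact Finset.sum_pos (fun j _ => by exact_mod_cast hmpos j s hs) hr
    · rw [div_le_iff₀ hkR]
      have h4 := sum_mult k p m hp hm a G hsame s hs
      calc ∑ j ∈ Finset.range k, (mult j s : ℝ) ≤
          k + ((S.card : ℝ) - 1) * ⌈(k : ℝ) / p⌉₊ := h4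
        _ = (1 + ((S.card : ℝ) - 1) * (⌈(k : ℝ) / p⌉₊ / k)) * k := by
          field_simp
  have h5 : ∀ s ∈ S, ((part a (m * p) G s).card : ℝ) *
        ∑ j ∈ Finset.range k, Real.log ((val a j (part a (m * p) G s)).card : ℝ)
      - k * ((part a (m * p) G s).card * Real.log (1 + ((S.card : ℝ) - 1) *
          (⌈(k : ℝ) / p⌉₊ / k)))
      - k * (((part a (m * p) G s).card : ℝ) * Real.log ((part a (m * p) G s).card : ℝ))
      + k * ((part a (m * p) G s).card * Real.log (G.card : ℝ)) ≤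
      ∑ j ∈ Finset.range k, ((part a (m * p) G s).card : ℝ) *
      (Real.log ((val a j (part a (m * p) G s)).card : ℝ) - Real.log (mult j s : ℝ)
        - Real.log ((part a (m * p) G s).card : ℝ) + Real.log (G.card : ℝ)) := by
    intro s hs
    rw [← Finset.mul_sum, Finset.sum_add_distrib, Finset.sum_sub_distrib, Finset.sum_sub_distrib,
      Finset.sum_const, Finset.sum_const, Finset.card_range, nsmul_eq_mul, nsmul_eq_mul]
    have := mul_le_mul_of_nonneg_left (h3 s hs) (hw s hs).le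
    nlinarith [this]
  have h6 := (Finset.sum_le_sum h5).trans h2
  refine le_trans (le_of_eq ?_) h6
  rw [Finset.sum_add_distrib, Finset.sum_sub_distrib, Finset.sum_sub_distrib,
    ← Finset.mul_sum, ← Finset.mul_sum, ← Finset.mul_sum, ← Finset.sum_mul, ← Finset.sum_mul, hsum]
  ring

end Pool.Agent.H77.AK
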