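import Pool.Agent.H77.AK.NSC

set_option autoImplicit false

namespace Pool.Agent.H77.AK

open Finset

/-- The number of classes modulo m' inside the class modulo m of d. -/
noncomputable def chi (a : ℕ → ℕ) (D : Finset ℕ) (m m' d : ℕ) : ℕ :=
  ((part a m D (cls a m d)).image (cls a m')).card

theorem part_part {a : ℕ → ℕ} {D : Finset ℕ} {m m' : ℕ} (hmm : m ∣ m') {z d : ℕ}
    (hzd : cls a m d = cls a m z) :
    part a m' (part a m D (cls a m z)) (cls a m' d) = part a m' D (cls a m' d) := by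
  ext x
  unfold part
  simp only [Finset.mem_filter]
  constructor
  · rintro ⟨⟨h1, _⟩, h3⟩
    exact ⟨h1, h3⟩
  · rintro ⟨h1, h2⟩
    refine ⟨⟨h1, ?_⟩, h2⟩
    rw [← hzd]
    have e1 : a x % m' = a d % m' := congrArg Prod.fst h2
    have e2 : x % m' = d % m' := congrArg Prod.snd h2
    refine Prod.ext ?_ ?_
    · show a x % m = a d % m
      rw [← Nat.mod_mod_of_dvd (a x) hmm, e1, Nat.mod_mod_of_dvd _ hmm]
    · show x % m = d % m
      rw [← Nat.mod_mod_of_dvd x hmm, e2, Nat.mod_mod_of_dvd _ hmm]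

theorem cls_of_mem_part {a : ℕ → ℕ} {D : Finset ℕ} {m : ℕ} {s : ℕ × ℕ} {d : ℕ}
    (h : d ∈ part a m D s) : cls a m d = s := (Finset.mem_filter.1 h).2

/-- The multi-scale inequality, level by level. -/
theorem levels (k n : ℕ) (hk : 1 ≤ k) (p : ℕ → ℕ) (hp : ∀ i < n, (p i).Prime) (a : ℕ → ℕ)
    (D : Finset ℕ)
    (hD : ∀ d ∈ D, ∀ d' ∈ D, d ≡ d' [MOD (∏ i ∈ Finset.range n, p i)] → d = d')
    (l r : ℕ) (hlr : l + r = n) (z : ℕ) (hz : z ∈ D) :
    k * (((part a (∏ i ∈ Finset.range l, p i) D (cls a (∏ i ∈ Finset.range l, p i) z)).card : ℝ) *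
      Real.log ((part a (∏ i ∈ Finset.range l, p i) D
        (cls a (∏ i ∈ Finset.range l, p i) z)).card : ℝ))
      - k * ∑ d ∈ part a (∏ i ∈ Finset.range l, p i) D (cls a (∏ i ∈ Finset.range l, p i) z),
        ∑ i ∈ Finset.Ico l n, Real.log (1 + ((chi a D (∏ t ∈ Finset.range i, p t)
          (∏ t ∈ Finset.range (i + 1), p t) d : ℝ) - 1) * (⌈(k : ℝ) / p i⌉₊ / k)) ≤
    ((part a (∏ i ∈ Finset.range l, p i) D (cls a (∏ i ∈ Finset.range l, p i) z)).card : ℝ) *
      ∑ j ∈ Finset.range k, Real.log ((val a j (part a (∏ i ∈ Finset.range l, p i) D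
        (cls a (∏ i ∈ Finset.range l, p i) z))).card : ℝ) := by
  classical
  induction r generalizing l z with
  | zero =>
    have hl : l = n := by omega
    subst hl
    set m := ∏ i ∈ Finset.range l, p i with hm
    have h1 : (part a m D (cls a m z)).card ≤ 1 := by
      apply Finset.card_le_one.2
      intro x hx y hy
      obtain ⟨hxD, hxc⟩ := Finset.mem_filter.1 hx
      obtain ⟨hyD, hyc⟩ := Finset.mem_filter.1 hy
      apply hD x hxD y hyD
      have e : cls a m x = cls a m y := hxc.trans hyc.symm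
      exact congrArg Prod.snd e
    have h2 : 1 ≤ (part a m D (cls a m z)).card :=
      Finset.card_pos.2 ⟨z, Finset.mem_filter.2 ⟨hz, rfl⟩⟩
    have h3 : (part a m D (cls a m z)).card = 1 := le_antisymm h1 h2
    rw [h3]
    simp only [Finset.Ico_self, Finset.sum_empty, Nat.cast_one, Real.log_one, mul_zero,
      Finset.sum_const_zero, sub_zero, one_mul]
    apply Finset.sum_nonneg
    intro j _
    apply Real.log_natCast_nonneg
  | succ r ih =>
    have hln : l < n := by omega
    set m := ∏ i ∈ Finset.range l, p i with hm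
    have hm' : ∏ i ∈ Finset.range (l + 1), p i = m * p l := Finset.prod_range_succ _ _
    have hmpos : 0 < m := Finset.prod_pos (fun i hi => (hp i (by
      have := Finset.mem_range.1 hi; omega)).pos)
    set G := part a m D (cls a m z) with hG
    have hzG : z ∈ G := Finset.mem_filter.2 ⟨hz, rfl⟩
    have hGne : G.Nonempty := ⟨z, hzG⟩
    have hsame : ∀ d ∈ G, ∀ d' ∈ G, cls a m d = cls a m d' := fun d hd d' hd' =>
      (cls_of_mem_part hd).trans (cls_of_mem_part hd').symm
    have hst := step k (p l) m hk (hp l hln) hmpos a G hGne hsame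
    have hdvd : m ∣ m * p l := Dvd.intro _ rfl
    -- the induction hypothesis for the parts
    have hpart : ∀ s ∈ G.image (cls a (m * p l)),
        k * (((part a (m * p l) G s).card : ℝ) * Real.log ((part a (m * p l) G s).card : ℝ))
        - k * ∑ d ∈ part a (m * p l) G s,
          ∑ i ∈ Finset.Ico (l + 1) n, Real.log (1 + ((chi a D (∏ t ∈ Finset.range i, p t)
          (∏ t ∈ Finset.range (i + 1), p t) d : ℝ) - 1) * (⌈(k : ℝ) / p i⌉₊ / k)) ≤
        ((part a (m * p l) G s).card : ℝ) *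
        ∑ j ∈ Finset.range k, Real.log ((val a j (part a (m * p l) G s)).card : ℝ) := by
      intro s hs
      obtain ⟨d, hd, rfl⟩ := Finset.mem_image.1 hs
      have h1 := ih (l + 1) (by omega) d (Finset.mem_filter.1 hd).1
      rw [hm'] at h1
      rw [hG, part_part hdvd (cls_of_mem_part hd)]
      exact h1
    have hsum := Finset.sum_le_sum hpart
    rw [Finset.sum_sub_distrib, ← Finset.mul_sum, ← Finset.mul_sum] at hsum
    -- the parts tile G
    have hfib : ∑ s ∈ G.image (cls a (m * p l)), ∑ d ∈ part a (m * p l) G s,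
          ∑ i ∈ Finset.Ico (l + 1) n, Real.log (1 + ((chi a D (∏ t ∈ Finset.range i, p t)
          (∏ t ∈ Finset.range (i + 1), p t) d : ℝ) - 1) * (⌈(k : ℝ) / p i⌉₊ / k)) =
        ∑ d ∈ G, ∑ i ∈ Finset.Ico (l + 1) n, Real.log (1 + ((chi a D (∏ t ∈ Finset.range i, p t)
          (∏ t ∈ Finset.range (i + 1), p t) d : ℝ) - 1) * (⌈(k : ℝ) / p i⌉₊ / k)) :=
      Finset.sum_fiberwise_of_maps_to (fun d hd => Finset.mem_image_of_mem _ hd) _
    rw [hfib] at hsum
    -- the term of level l
    have hchi : ∀ d ∈ G, chi a D m (m * p l) d = (G.image (cls a (m * p l))).card := by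
      intro d hd
      unfold chi
      rw [cls_of_mem_part hd]
    have hlev : ∑ d ∈ G, ∑ i ∈ Finset.Ico l n, Real.log (1 + ((chi a D
          (∏ t ∈ Finset.range i, p t) (∏ t ∈ Finset.range (i + 1), p t) d : ℝ) - 1) *
          (⌈(k : ℝ) / p i⌉₊ / k)) =
        G.card * Real.log (1 + (((G.image (cls a (m * p l))).card : ℝ) - 1) *
          (⌈(k : ℝ) / p l⌉₊ / k)) +
        ∑ d ∈ G, ∑ i ∈ Finset.Ico (l + 1) n, Real.log (1 + ((chi a D
          (∏ t ∈ Finset.range i, p t) (∏ t ∈ Finset.range (i + 1), p t) d : ℝ) - 1) *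
          (⌈(k : ℝ) / p i⌉₊ / k)) := by
      rw [← nsmul_eq_mul, ← Finset.sum_const, ← Finset.sum_add_distrib]
      apply Finset.sum_congr rfl
      intro d hd
      rw [Finset.sum_eq_sum_Ico_succ_bot hln, hm', hchi d hd]
    rw [hlev]
    nlinarith [hst, hsum]

end Pool.Agent.H77.AK
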