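import Pool.Agent.H77.AK.NSD

set_option autoImplicit false

namespace Pool.Agent.H77.AK

open Finset

/-- A residue class modulo m has at most N/m members in [1,N], m dividing N. -/
theorem part_card_le (a : ℕ → ℕ) (m q : ℕ) (hm : 0 < m) (s : ℕ × ℕ) :
    (part a m (Finset.Icc 1 (m * q)) s).card ≤ q := by
  have h : ((part a m (Finset.Icc 1 (m * q)) s).image (fun d => (d - 1) / m)).card =
      (part a m (Finset.Icc 1 (m * q)) s).card := by
    apply Finset.card_image_of_injOn
    intro d hd d' hd' hdd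
    obtain ⟨h1, h2⟩ := Finset.mem_filter.1 hd
    obtain ⟨h1', h2'⟩ := Finset.mem_filter.1 hd'
    have e1 : d % m = d' % m := congrArg Prod.snd (h2.trans h2'.symm)
    have e2 : (d - 1) / m = (d' - 1) / m := hdd
    have g1 := (Finset.mem_Icc.1 h1).1
    have g1' := (Finset.mem_Icc.1 h1').1
    have e3 : (d - 1) ≡ (d' - 1) [MOD m] := by
      have : (d - 1) + 1 ≡ (d' - 1) + 1 [MOD m] := by
        rw [Nat.sub_add_cancel g1, Nat.sub_add_cancel g1']
        exact e1
      exact Nat.ModEq.add_right_cancel' 1 this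
    have e4 : d - 1 = d' - 1 := by
      rw [← Nat.div_add_mod (d - 1) m, ← Nat.div_add_mod (d' - 1) m, e2, e3]
    omega
  rw [← h]
  calc _ ≤ (Finset.range q).card := by
        apply Finset.card_le_card
        intro t ht
        obtain ⟨d, hd, rfl⟩ := Finset.mem_image.1 ht
        obtain ⟨h1, _⟩ := Finset.mem_filter.1 hd
        rw [Finset.mem_range, Nat.div_lt_iff_lt_mul hm]
        have := Finset.mem_Icc.1 h1
        have e : q * m = m * q := Nat.mul_comm _ _
        omega
    _ = q := Finset.card_range q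

/-- The classes modulo m' inside the classes modulo m are distinct. -/
theorem sum_children_le (a : ℕ → ℕ) (D : Finset ℕ) (m m' : ℕ) (hmm : m ∣ m') :
    ∑ s ∈ D.image (cls a m), ((part a m D s).image (cls a m')).card ≤
      (D.image (cls a m')).card := by
  classical
  rw [← Finset.card_biUnion]
  · apply Finset.card_le_card
    intro x hx
    simp only [Finset.mem_biUnion, Finset.mem_image] at hx
    obtain ⟨s, _, d, hd, rfl⟩ := hx
    exact Finset.mem_image_of_mem _ (Finset.mem_filter.1 hd).1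
  · intro s _ s' _ hss
    apply Finset.disjoint_left.2
    intro x hx hx'
    obtain ⟨d, hd, rfl⟩ := Finset.mem_image.1 hx
    obtain ⟨d', hd', hdd⟩ := Finset.mem_image.1 hx'
    apply hss
    rw [← cls_of_mem_part hd, ← cls_of_mem_part hd']
    have e1 : a d' % m' = a d % m' := congrArg Prod.fst hdd
    have e2 : d' % m' = d % m' := congrArg Prod.snd hdd
    refine Prod.ext ?_ ?_
    · show a d % m = a d' % m
      rw [← Nat.mod_mod_of_dvd (a d) hmm, ← e1, Nat.mod_mod_of_dvd _ hmm]
    · show d % m = d' % m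
      rw [← Nat.mod_mod_of_dvd d hmm, ← e2, Nat.mod_mod_of_dvd _ hmm]

/-- The sum over d of the number of children of its class. -/
theorem sum_chi_le (a : ℕ → ℕ) (m m' q : ℕ) (hm : 0 < m) (hmm : m ∣ m') :
    ∑ d ∈ Finset.Icc 1 (m * q), chi a (Finset.Icc 1 (m * q)) m m' d ≤
      q * ((Finset.Icc 1 (m * q)).image (cls a m')).card := by
  classical
  set D := Finset.Icc 1 (m * q) with hD
  have h1 : ∑ d ∈ D, chi a D m m' d =
      ∑ s ∈ D.image (cls a m), ∑ d ∈ D.filter (fun d => cls a m d = s), chi a D m m' d :=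
    (Finset.sum_fiberwise_of_maps_to (fun d hd => Finset.mem_image_of_mem _ hd) _).symm
  rw [h1]
  calc ∑ s ∈ D.image (cls a m), ∑ d ∈ D.filter (fun d => cls a m d = s), chi a D m m' d
      ≤ ∑ s ∈ D.image (cls a m), q * ((part a m D s).image (cls a m')).card := by
        apply Finset.sum_le_sum
        intro s hs
        have h2 : ∀ d ∈ D.filter (fun d => cls a m d = s), chi a D m m' d =
            ((part a m D s).image (cls a m')).card := by
          intro d hd
          unfold chi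
          rw [(Finset.mem_filter.1 hd).2]
        rw [Finset.sum_congr rfl h2, Finset.sum_const, smul_eq_mul]
        exact Nat.mul_le_mul_right _ (part_card_le a m q hm s)
    _ = q * ∑ s ∈ D.image (cls a m), ((part a m D s).image (cls a m')).card := by
        rw [Finset.mul_sum]
    _ ≤ _ := Nat.mul_le_mul_left _ (sum_children_le a D m m' hmm)

theorem chi_pos (a : ℕ → ℕ) (D : Finset ℕ) (m m' d : ℕ) (hd : d ∈ D) : 1 ≤ chi a D m m' d := by
  unfold chi
  exact Finset.card_pos.2 ⟨cls a m' d,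
    Finset.mem_image_of_mem _ (Finset.mem_filter.2 ⟨hd, rfl⟩)⟩

/-- The unconditional inequality. -/
theorem nonSticky (k n : ℕ) (hk : 1 ≤ k) (p : ℕ → ℕ) (hp : ∀ i < n, (p i).Prime) (a : ℕ → ℕ)
    (A : Finset ℕ)
    (hA : ∀ d ∈ Finset.Icc 1 (∏ i ∈ Finset.range n, p i), ∀ j ∈ Finset.range k,
      a d + j * d ∈ A) :
    ((∏ i ∈ Finset.range n, p i : ℕ) : ℝ) ≤
      (A.card : ℝ) * ∏ i ∈ Finset.range n,
        (1 + ((((Finset.Icc 1 (∏ t ∈ Finset.range n, p t)).image
          (cls a (∏ t ∈ Finset.range (i + 1), p t))).card : ℝ) /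
            ((∏ t ∈ Finset.range i, p t : ℕ) : ℝ) - 1) * (⌈(k : ℝ) / p i⌉₊ / k)) := by
  classical
  set m : ℕ → ℕ := fun i => ∏ t ∈ Finset.range i, p t with hmdef
  have hmi : ∀ i, ∏ t ∈ Finset.range i, p t = m i := fun i => rfl
  have hkR : (0 : ℝ) < k := by exact_mod_cast hk
  have hmpos : ∀ i ≤ n, 0 < m i := fun i hi => Finset.prod_pos (fun t ht => (hp t (by
      have := Finset.mem_range.1 ht; omega)).pos)
  have hN : 0 < m n := hmpos n le_rfl
  set D := Finset.Icc 1 (m n) with hD
  have h1D : 1 ∈ D := Finset.mem_Icc.2 ⟨le_rfl, hN⟩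
  have hinj : ∀ d ∈ D, ∀ d' ∈ D, d ≡ d' [MOD (∏ i ∈ Finset.range n, p i)] → d = d' := by
    intro d hd d' hd' hdd
    have h1 := Finset.mem_Icc.1 hd
    have h2 := Finset.mem_Icc.1 hd'
    have e3 : (d - 1) ≡ (d' - 1) [MOD (m n)] := by
      have : (d - 1) + 1 ≡ (d' - 1) + 1 [MOD (m n)] := by
        rw [Nat.sub_add_cancel h1.1, Nat.sub_add_cancel h2.1]
        exact hdd
      exact Nat.ModEq.add_right_cancel' 1 this
    have := Nat.ModEq.eq_of_lt_of_lt e3 (by omega) (by omega)
    omega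
  have hlev := levels k n hk p hp a D hinj 0 n (by omega) 1 h1D
  have hm0 : ∏ i ∈ Finset.range 0, p i = 1 := Finset.prod_range_zero _
  have hpart0 : part a 1 D (cls a 1 1) = D := by
    unfold part
    apply Finset.filter_true_of_mem
    intro d _
    unfold cls
    simp only [Nat.mod_one]
  rw [hm0, hpart0] at hlev
  have hDcard : D.card = m n := by
    rw [hD, Nat.card_Icc]
    omega
  rw [hDcard] at hlev
  have hNR : (0 : ℝ) < (m n : ℝ) := by exact_mod_cast hN
  -- A is nonempty
  have hAne : A.Nonempty := ⟨a 1 + 0 * 1, hA 1 h1D 0 (Finset.mem_range.2 (by omega))⟩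
  have hAR : (0 : ℝ) < (A.card : ℝ) := by exact_mod_cast hAne.card_pos
  have hup : ∑ j ∈ Finset.range k, Real.log ((val a j D).card : ℝ) ≤ k * Real.log (A.card : ℝ) := by
    calc ∑ j ∈ Finset.range k, Real.log ((val a j D).card : ℝ)
        ≤ ∑ j ∈ Finset.range k, Real.log (A.card : ℝ) := by
          apply Finset.sum_le_sum
          intro j hj
          apply Real.log_le_log
          · exact_mod_cast Finset.card_pos.2 (val_nonempty ⟨1, h1D⟩)
          · have : (val a j D).card ≤ A.card := by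
              apply Finset.card_le_card
              intro x hx
              obtain ⟨d, hd, rfl⟩ := Finset.mem_image.1 hx
              exact hA d hd j hj
            exact_mod_cast this
      _ = k * Real.log (A.card : ℝ) := by
          rw [Finset.sum_const, Finset.card_range, nsmul_eq_mul]
  -- the factors
  set w : ℕ → ℝ := fun i => (⌈(k : ℝ) / p i⌉₊ : ℝ) / k with hw
  have hw0 : ∀ i, 0 ≤ w i := fun i => div_nonneg (Nat.cast_nonneg _) hkR.le
  set f : ℕ → ℝ := fun i => 1 + (((D.image (cls a (m (i + 1)))).card : ℝ) / (m i : ℝ) - 1) * w i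
    with hf
  have havg : ∀ i < n, ∑ d ∈ D, (1 + ((chi a D (m i) (m (i + 1)) d : ℝ) - 1) * w i) ≤
      (m n : ℝ) * f i := by
    intro i hi
    have hdvd : m i ∣ m n := by
      show ∏ t ∈ Finset.range i, p t ∣ ∏ t ∈ Finset.range n, p t
      exact Finset.prod_dvd_prod_of_subset _ _ _ (Finset.range_subset_range.2 hi.le)
    obtain ⟨q, hq⟩ := hdvd
    have hmm : m i ∣ m (i + 1) := by
      show ∏ t ∈ Finset.range i, p t ∣ ∏ t ∈ Finset.range (i + 1), p t
      rw [Finset.prod_range_succ]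
      exact Dvd.intro _ rfl
    have h1 := sum_chi_le a (m i) (m (i + 1)) q (hmpos i hi.le) hmm
    rw [← hq] at h1
    have h2 : ((∑ d ∈ D, chi a D (m i) (m (i + 1)) d : ℕ) : ℝ) ≤
        ((q * (D.image (cls a (m (i + 1)))).card : ℕ) : ℝ) := by exact_mod_cast h1
    push_cast at h2
    have hmiR : (0 : ℝ) < (m i : ℝ) := by exact_mod_cast hmpos i hi.le
    have hqR : (q : ℝ) = (m n : ℝ) / (m i : ℝ) := by
      rw [hq]
      push_cast
      field_simp
    have h3 : ∑ d ∈ D, (1 + ((chi a D (m i) (m (i + 1)) d : ℝ) - 1) * w i) =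
        (m n : ℝ) + ((∑ d ∈ D, (chi a D (m i) (m (i + 1)) d : ℝ)) - (m n : ℝ)) * w i := by
      rw [Finset.sum_add_distrib, ← Finset.sum_mul, Finset.sum_sub_distrib, Finset.sum_const,
        hDcard, nsmul_eq_mul, mul_one]
    rw [h3]
    have h4 : (∑ d ∈ D, (chi a D (m i) (m (i + 1)) d : ℝ)) - (m n : ℝ) ≤
        (m n : ℝ) * (((D.image (cls a (m (i + 1)))).card : ℝ) / (m i : ℝ) - 1) := by
      rw [hqR] at h2
      have e : (m n : ℝ) * (((D.image (cls a (m (i + 1)))).card : ℝ) / (m i : ℝ) - 1) =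
          (m n : ℝ) / (m i : ℝ) * ((D.image (cls a (m (i + 1)))).card : ℝ) - (m n : ℝ) := by
        ring
      rw [e]
      linarith [h2]
    have h5 := mul_le_mul_of_nonneg_right h4 (hw0 i)
    calc (m n : ℝ) + ((∑ d ∈ D, (chi a D (m i) (m (i + 1)) d : ℝ)) - (m n : ℝ)) * w i
        ≤ (m n : ℝ) + (m n : ℝ) * (((D.image (cls a (m (i + 1)))).card : ℝ) / (m i : ℝ) - 1) *
          w i := by linarith [h5]
      _ = (m n : ℝ) * f i := by
          rw [hf]
          ring
  have hge1 : ∀ i, ∀ d ∈ D, 1 ≤ 1 + ((chi a D (m i) (m (i + 1)) d : ℝ) - 1) * w i := by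
    intro i d hd
    have h1 : (1 : ℝ) ≤ (chi a D (m i) (m (i + 1)) d : ℝ) := by
      exact_mod_cast chi_pos a D (m i) (m (i + 1)) d hd
    have := mul_nonneg (sub_nonneg.2 h1) (hw0 i)
    linarith
  have hfpos : ∀ i < n, 0 < f i := by
    intro i hi
    have h1 := havg i hi
    have h2 : (m n : ℝ) ≤ ∑ d ∈ D, (1 + ((chi a D (m i) (m (i + 1)) d : ℝ) - 1) * w i) := by
      calc (m n : ℝ) = ∑ d ∈ D, (1 : ℝ) := by
            rw [Finset.sum_const, hDcard, nsmul_eq_mul, mul_one]
        _ ≤ _ := Finset.sum_le_sum (fun d hd => hge1 i d hd)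
    have h3 : (m n : ℝ) * 1 ≤ (m n : ℝ) * f i := by linarith
    have h4 := le_of_mul_le_mul_left h3 hNR
    linarith
  have hloglev : ∀ i < n, ∑ d ∈ D, Real.log (1 + ((chi a D (m i) (m (i + 1)) d : ℝ) - 1) * w i) ≤
      (m n : ℝ) * Real.log (f i) := by
    intro i hi
    have h1 := mean_log D (fun d => 1 + ((chi a D (m i) (m (i + 1)) d : ℝ) - 1) * w i) ⟨1, h1D⟩
      (fun d hd => lt_of_lt_of_le one_pos (hge1 i d hd))
    rw [hDcard] at h1
    refine h1.trans (mul_le_mul_of_nonneg_left ?_ hNR.le)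
    apply Real.log_le_log
    · apply div_pos _ hNR
      exact Finset.sum_pos (fun d hd => lt_of_lt_of_le one_pos (hge1 i d hd)) ⟨1, h1D⟩
    · rw [div_le_iff₀ hNR]
      linarith [havg i hi]
  have hsumlev : ∑ d ∈ D, ∑ i ∈ Finset.Ico 0 n,
      Real.log (1 + ((chi a D (m i) (m (i + 1)) d : ℝ) - 1) * w i) ≤
      (m n : ℝ) * ∑ i ∈ Finset.range n, Real.log (f i) := by
    rw [Finset.sum_comm, Finset.mul_sum, ← Finset.range_eq_Ico]
    apply Finset.sum_le_sum
    intro i hi
    exact hloglev i (Finset.mem_range.1 hi)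
  -- conclusion
  have hfin : Real.log (m n : ℝ) ≤ Real.log (A.card : ℝ) + ∑ i ∈ Finset.range n, Real.log (f i) := by
    have h1 := hlev.trans (mul_le_mul_of_nonneg_left hup hNR.le)
    have h2 : (k : ℝ) * ((m n : ℝ) * Real.log (m n : ℝ)) ≤
        (k : ℝ) * ((m n : ℝ) * (Real.log (A.card : ℝ) + ∑ i ∈ Finset.range n, Real.log (f i))) := by
      have h3 := mul_le_mul_of_nonneg_left hsumlev hkR.le
      simp only [hmi] at h1
      linarith [h1, h3]
    have h3 := le_of_mul_le_mul_left h2 hkR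
    exact le_of_mul_le_mul_left h3 hNR
  have hprodpos : 0 < ∏ i ∈ Finset.range n, f i :=
    Finset.prod_pos (fun i hi => hfpos i (Finset.mem_range.1 hi))
  have hlogprod : Real.log ((A.card : ℝ) * ∏ i ∈ Finset.range n, f i) =
      Real.log (A.card : ℝ) + ∑ i ∈ Finset.range n, Real.log (f i) := by
    rw [Real.log_mul hAR.ne' hprodpos.ne', Real.log_prod]
    intro i hi
    exact (hfpos i (Finset.mem_range.1 hi)).ne'
  rw [← hlogprod] at hfin
  exact (Real.log_le_log_iff hNR (mul_pos hAR hprodpos)).1 hfin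

end Pool.Agent.H77.AK
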