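import Mathlib

set_option autoImplicit false

namespace Pool.Agent.H77.AK

open Finset

/-- Discrete intermediate value property. -/
theorem cross_level (f : ℕ → ℤ) (s t : ℕ) (hst : s ≤ t) (L : ℤ) (hs : f s ≤ L) (ht : L < f t) :
    ∃ e, s ≤ e ∧ e < t ∧ f e ≤ L ∧ L < f (e + 1) := by
  by_contra hcon
  push Not at hcon
  have h : ∀ e, s ≤ e → e ≤ t → f e ≤ L := by
    intro e he
    induction e, he using Nat.le_induction with
    | base => intro _; exact hs
    | succ e he ih =>
      intro het
      exact hcon e he (by omega) (ih (by omega))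
  exact absurd (h t hst le_rfl) (not_le.2 ht)

/-- A walk with up-steps at most u that rises by R meets at least R/u values. -/
theorem rise_le (f : ℕ → ℤ) (u : ℕ) (hu : 1 ≤ u) (s t : ℕ) (hst : s ≤ t)
    (hstep : ∀ e, s ≤ e → e < t → f (e + 1) ≤ f e + u) (V : Finset ℤ)
    (hV : ∀ e, s ≤ e → e ≤ t → f e ∈ V) : f t - f s ≤ u * (V.card : ℤ) := by
  classical
  by_contra hcon
  push Not at hcon
  have huz : (0 : ℤ) < u := by exact_mod_cast hu
  have h : (Finset.range (V.card + 1)).image (fun i : ℕ => (i : ℤ)) ⊆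
      V.image (fun v => (v - f s - 1) / (u : ℤ)) := by
    intro x hx
    obtain ⟨i, hi, rfl⟩ := Finset.mem_image.1 hx
    have hi' : i ≤ V.card := Nat.lt_succ_iff.1 (Finset.mem_range.1 hi)
    have h1 : (i : ℤ) * u ≤ u * (V.card : ℤ) := by
      have : (i : ℤ) ≤ (V.card : ℤ) := by exact_mod_cast hi'
      nlinarith
    obtain ⟨e, he1, he2, he3, he4⟩ := cross_level f s t hst (f s + i * u)
      (by have : (0 : ℤ) ≤ (i : ℤ) * u := by positivity
          linarith) (by linarith)
    refine Finset.mem_image.2 ⟨f (e + 1), hV (e + 1) (by omega) (by omega), ?_⟩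
    have h5 := hstep e he1 he2
    apply le_antisymm
    · apply Int.le_of_lt_add_one
      rw [Int.ediv_lt_iff_lt_mul huz]
      nlinarith
    · rw [Int.le_ediv_iff_mul_le huz]
      linarith
  have h2 := Finset.card_le_card h
  rw [Finset.card_image_of_injective _ (fun i j hij => by exact_mod_cast hij),
    Finset.card_range] at h2
  have h3 := (Finset.card_image_le (s := V) (f := fun v => (v - f s - 1) / (u : ℤ)))
  omega

/-- The real inequality of the induction step. -/
theorem real_step (k : ℕ) (hk : 1 ≤ k) (c x y M : ℝ) (hc : 0 < c) (hc1 : c ≤ 1) (hx : 0 < x)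
    (hy : 0 < y) (hM : 1 ≤ M) (hyM : y ≤ 2 * M)
    (h : x / (4 * y) * (c * y ^ (1 - 1 / (k : ℝ))) ≤ k * M) :
    c / (8 * k) * x ^ (1 - 1 / ((k : ℝ) + 1)) ≤ M := by
  have hkR : (1 : ℝ) ≤ k := by exact_mod_cast hk
  have hk0 : (0 : ℝ) < k := by linarith
  have hM0 : 0 < M := by linarith
  have h1 : y ^ (1 - 1 / (k : ℝ)) = y * y ^ (-(1 / (k : ℝ))) := by
    rw [sub_eq_add_neg, Real.rpow_add hy, Real.rpow_one]
  have h2 : x / (4 * y) * (c * y ^ (1 - 1 / (k : ℝ))) = c * x / 4 * y ^ (-(1 / (k : ℝ))) := by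
    rw [h1]
    field_simp
  rw [h2] at h
  have hypow : 0 < y ^ (1 / (k : ℝ)) := Real.rpow_pos_of_pos hy _
  rw [Real.rpow_neg hy.le, ← div_eq_mul_inv, div_le_iff₀ hypow] at h
  have h3 : y ^ (1 / (k : ℝ)) ≤ 2 * M ^ (1 / (k : ℝ)) := by
    calc y ^ (1 / (k : ℝ)) ≤ (2 * M) ^ (1 / (k : ℝ)) :=
          Real.rpow_le_rpow hy.le hyM (by positivity)
      _ = 2 ^ (1 / (k : ℝ)) * M ^ (1 / (k : ℝ)) := Real.mul_rpow (by norm_num) hM0.le
      _ ≤ 2 ^ (1 : ℝ) * M ^ (1 / (k : ℝ)) := by
          apply mul_le_mul_of_nonneg_right _ (Real.rpow_nonneg hM0.le _)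
          apply Real.rpow_le_rpow_of_exponent_le (by norm_num)
          rw [div_le_one hk0]
          exact hkR
      _ = 2 * M ^ (1 / (k : ℝ)) := by rw [Real.rpow_one]
  have h4 : c * x / 4 ≤ k * M * (2 * M ^ (1 / (k : ℝ))) :=
    h.trans (mul_le_mul_of_nonneg_left h3 (by positivity))
  have h5 : c / (8 * k) * x ≤ M ^ (1 + 1 / (k : ℝ)) := by
    rw [Real.rpow_add hM0, Real.rpow_one, div_mul_eq_mul_div, div_le_iff₀ (by positivity)]
    nlinarith
  set θ : ℝ := 1 - 1 / ((k : ℝ) + 1) with hθ
  have hθ0 : 0 ≤ θ := by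
    rw [hθ, sub_nonneg, div_le_one (by positivity)]
    linarith
  have hθ1 : θ ≤ 1 := by
    rw [hθ]
    have : 0 ≤ 1 / ((k : ℝ) + 1) := by positivity
    linarith
  have hmul : (1 + 1 / (k : ℝ)) * θ = 1 := by
    rw [hθ]
    field_simp
    ring
  have hcpos : 0 < c / (8 * k) := by positivity
  have hcle : c / (8 * k) ≤ 1 := by
    rw [div_le_one (by positivity)]
    nlinarith
  calc c / (8 * k) * x ^ θ ≤ (c / (8 * k)) ^ θ * x ^ θ := by
        apply mul_le_mul_of_nonneg_right _ (Real.rpow_nonneg hx.le _)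
        calc c / (8 * k) = (c / (8 * k)) ^ (1 : ℝ) := (Real.rpow_one _).symm
          _ ≤ (c / (8 * k)) ^ θ := Real.rpow_le_rpow_of_exponent_ge hcpos hcle hθ1
    _ = (c / (8 * k) * x) ^ θ := (Real.mul_rpow hcpos.le hx.le).symm
    _ ≤ (M ^ (1 + 1 / (k : ℝ))) ^ θ := Real.rpow_le_rpow (by positivity) h5 hθ0
    _ = M := by rw [← Real.rpow_mul hM0.le, hmul, Real.rpow_one]

/-- The lower bound for start maps whose increments are bounded from above. -/
theorem core (k : ℕ) (hk : 1 ≤ k) : ∃ c : ℝ, 0 < c ∧ c ≤ 1 ∧ ∀ (u : ℕ), 1 ≤ u →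
    ∀ (s N : ℕ), 1 ≤ N → ∀ (a : ℕ → ℤ) (A : Finset ℤ),
    (∀ d, s ≤ d → d + 1 < s + N → a (d + 1) + ((k : ℤ) - 1) ≤ a d + u) →
    (∀ d, s ≤ d → d < s + N → ∀ j < k, a d + (j : ℤ) * d ∈ A) →
    c * ((N : ℝ) / u) ^ (1 - 1 / (k : ℝ)) ≤ A.card := by
  classical
  induction k, hk using Nat.le_induction with
  | base =>
    refine ⟨1, one_pos, le_rfl, ?_⟩
    intro u hu s N hN a A _ hA
    have hne : A.Nonempty := ⟨_, hA s le_rfl (by omega) 0 one_pos⟩
    have : (1 : ℝ) ≤ A.card := by exact_mod_cast hne.card_pos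
    simpa using this
  | succ k hk ih =>
    obtain ⟨c, hc, hc1, hih⟩ := ih
    have hkR : (1 : ℝ) ≤ k := by exact_mod_cast hk
    refine ⟨c / (8 * k), by positivity, ?_, ?_⟩
    · rw [div_le_one (by positivity)]
      nlinarith
    intro u hu s N hN a A hinc hA
    have hne : A.Nonempty := ⟨_, hA s le_rfl (by omega) 0 (by omega)⟩
    have hM1 : 1 ≤ A.card := hne.card_pos
    set M := A.card with hMdef
    have hMR : (1 : ℝ) ≤ (M : ℝ) := by exact_mod_cast hM1
    have huR : (1 : ℝ) ≤ (u : ℝ) := by exact_mod_cast hu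
    have hNR : (1 : ℝ) ≤ (N : ℝ) := by exact_mod_cast hN
    set L := u * M + 1 with hL
    -- the drift inequality
    have hdrift : ∀ d d', s ≤ d → d ≤ d' → d' < s + N →
        a d' + (k : ℤ) * d' - (a d + (k : ℤ) * d) ≤ u * (M : ℤ) := by
      intro d d' h1 h2 h3
      apply rise_le (fun e => a e + (k : ℤ) * e) u hu d d' h2 _ A
      · intro e he1 he2
        exact hA e (by omega) (by omega) k (by omega)
      · intro e he1 he2
        have := hinc e (by omega) (by omega)
        push_cast at this ⊢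
        linarith
    have hsep : ∀ j < k, ∀ d d', s ≤ d → d + L ≤ d' → d' < s + N →
        a d' + (j : ℤ) * d' < a d + (j : ℤ) * d := by
      intro j hj d d' h1 h2 h3
      have h4 := hdrift d d' h1 (by omega) h3
      have h5 : (j : ℤ) + 1 ≤ k := by exact_mod_cast hj
      have h6 : (d : ℤ) + (u * M + 1) ≤ d' := by exact_mod_cast h2
      nlinarith
    set K := N / (2 * L) with hK
    have hLpos : 0 < L := by omega
    have hKN : K * (2 * L) ≤ N := Nat.div_mul_le_self N (2 * L)
    set V : ℕ → ℕ → Finset ℤ := fun j m =>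
      (Finset.Ico (s + m * (2 * L)) (s + m * (2 * L) + L)).image (fun d : ℕ => a d + (j : ℤ) * d)
      with hV
    have hblock : ∀ m < K, m * (2 * L) + L ≤ N := by
      intro m hm
      have : (m + 1) * (2 * L) ≤ K * (2 * L) := Nat.mul_le_mul_right _ hm
      nlinarith
    -- disjointness for one slope
    have hdisj : ∀ j < k, ∑ m ∈ Finset.range K, (V j m).card ≤ M := by
      intro j hj
      rw [← Finset.card_biUnion]
      · apply Finset.card_le_card
        intro x hx
        obtain ⟨m, hm, hx⟩ := Finset.mem_biUnion.1 hx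
        obtain ⟨d, hd, rfl⟩ := Finset.mem_image.1 hx
        have h1 := hblock m (Finset.mem_range.1 hm)
        obtain ⟨h2, h3⟩ := Finset.mem_Ico.1 hd
        exact hA d (by omega) (by omega) j (by omega)
      · have key : ∀ m < K, ∀ m' < K, m < m' → Disjoint (V j m) (V j m') := by
          intro m hm m' hm' hmm
          apply Finset.disjoint_left.2
          intro x hx hx'
          obtain ⟨d, hd, rfl⟩ := Finset.mem_image.1 hx
          obtain ⟨d', hd', hdd⟩ := Finset.mem_image.1 hx'
          obtain ⟨h2, h3⟩ := Finset.mem_Ico.1 hd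
          obtain ⟨h2', h3'⟩ := Finset.mem_Ico.1 hd'
          have h1' := hblock m' hm'
          have h7 : (m + 1) * (2 * L) ≤ m' * (2 * L) := Nat.mul_le_mul_right _ hmm
          have h8 : (m + 1) * (2 * L) = m * (2 * L) + 2 * L := by ring
          have := hsep j hj d d' (by omega) (by omega) (by omega)
          exact absurd hdd this.ne
        intro m hm m' hm' hne'
        rcases lt_or_gt_of_ne hne' with h | h
        · exact key m (Finset.mem_range.1 hm) m' (Finset.mem_range.1 hm') h
        · exact (key m' (Finset.mem_range.1 hm') m (Finset.mem_range.1 hm) h).symm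
    -- the induction hypothesis on every block
    have hblk : ∀ m < K, c * ((L : ℝ) / u) ^ (1 - 1 / (k : ℝ)) ≤
        ∑ j ∈ Finset.range k, ((V j m).card : ℝ) := by
      intro m hm
      have h1 := hblock m hm
      have h2 := hih u hu (s + m * (2 * L)) L hLpos a
        ((Finset.range k).biUnion (fun j => V j m))
        (by
          intro d hd1 hd2
          have := hinc d (by omega) (by omega)
          push_cast at this
          linarith)
        (by
          intro d hd1 hd2 j hj
          exact Finset.mem_biUnion.2 ⟨j, Finset.mem_range.2 hj,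
            Finset.mem_image.2 ⟨d, Finset.mem_Ico.2 ⟨hd1, hd2⟩, rfl⟩⟩)
      refine h2.trans ?_
      have h3 := Finset.card_biUnion_le (s := Finset.range k) (t := fun j => V j m)
      exact_mod_cast h3
    have htot : (K : ℝ) * (c * ((L : ℝ) / u) ^ (1 - 1 / (k : ℝ))) ≤ k * M := by
      calc (K : ℝ) * (c * ((L : ℝ) / u) ^ (1 - 1 / (k : ℝ)))
          = ∑ m ∈ Finset.range K, c * ((L : ℝ) / u) ^ (1 - 1 / (k : ℝ)) := by
            rw [Finset.sum_const, Finset.card_range, nsmul_eq_mul]
        _ ≤ ∑ m ∈ Finset.range K, ∑ j ∈ Finset.range k, ((V j m).card : ℝ) :=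
            Finset.sum_le_sum (fun m hm => hblk m (Finset.mem_range.1 hm))
        _ = ∑ j ∈ Finset.range k, ∑ m ∈ Finset.range K, ((V j m).card : ℝ) := Finset.sum_comm
        _ ≤ ∑ j ∈ Finset.range k, (M : ℝ) := by
            apply Finset.sum_le_sum
            intro j hj
            exact_mod_cast hdisj j (Finset.mem_range.1 hj)
        _ = k * M := by rw [Finset.sum_const, Finset.card_range, nsmul_eq_mul]
    have hLR : (L : ℝ) = u * M + 1 := by rw [hL]; push_cast; ring
    have hx : 0 < (N : ℝ) / u := by positivity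
    have hpow : (1 : ℝ) - 1 / (((k + 1 : ℕ) : ℝ)) = 1 - 1 / ((k : ℝ) + 1) := by push_cast; ring
    rw [hpow]
    rcases Nat.eq_zero_or_pos K with hK0 | hK1
    · -- few differences
      have h1 : N < 2 * L := by
        by_contra hcon
        push Not at hcon
        have := Nat.div_pos hcon (by omega : 0 < 2 * L)
        omega
      have h2 : (N : ℝ) < 2 * L := by exact_mod_cast h1
      have h3 : (N : ℝ) / u ≤ 4 * M := by
        rw [div_le_iff₀ (by positivity)]
        rw [hLR] at h2
        nlinarith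
      have hθ0 : 0 ≤ 1 - 1 / ((k : ℝ) + 1) := by
        rw [sub_nonneg, div_le_one (by positivity)]
        linarith
      have hθ1 : 1 - 1 / ((k : ℝ) + 1) ≤ 1 := by
        have : 0 ≤ 1 / ((k : ℝ) + 1) := by positivity
        linarith
      have h4 : ((N : ℝ) / u) ^ (1 - 1 / ((k : ℝ) + 1)) ≤ 4 * M := by
        rcases le_total ((N : ℝ) / u) 1 with h5 | h5
        · calc _ ≤ (1 : ℝ) := Real.rpow_le_one hx.le h5 hθ0
            _ ≤ 4 * M := by linarith
        · calc _ ≤ ((N : ℝ) / u) ^ (1 : ℝ) := Real.rpow_le_rpow_of_exponent_le h5 hθ1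
            _ ≤ 4 * M := by rw [Real.rpow_one]; exact h3
      have h5 : c / (8 * k) ≤ 1 / 8 := by
        rw [div_le_div_iff₀ (by positivity) (by norm_num)]
        nlinarith
      calc c / (8 * k) * ((N : ℝ) / u) ^ (1 - 1 / ((k : ℝ) + 1)) ≤ 1 / 8 * (4 * M) :=
            mul_le_mul h5 h4 (Real.rpow_nonneg hx.le _) (by norm_num)
        _ ≤ M := by linarith
    · apply real_step k hk c ((N : ℝ) / u) ((L : ℝ) / u) M hc hc1 hx (by positivity) hMR
      · rw [div_le_iff₀ (by positivity), hLR]
        nlinarith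
      · refine le_trans (mul_le_mul_of_nonneg_right ?_ (by positivity)) htot
        have h1 : N < (K + 1) * (2 * L) := by
          have := Nat.lt_div_mul_add (a := N) (by omega : 0 < 2 * L)
          calc N < N / (2 * L) * (2 * L) + 2 * L := this
            _ = (K + 1) * (2 * L) := by rw [hK]; ring
        have h2 : (N : ℝ) ≤ 4 * K * L := by
          have h3 : N ≤ 4 * K * L := by nlinarith
          exact_mod_cast h3
        rw [show (N : ℝ) / u / (4 * (L / u)) = N / (4 * L) by field_simp]
        rw [div_le_iff₀ (by positivity)]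
        linarith

end Pool.Agent.H77.AK
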