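import Pool.Agent.H77.AK.OSA

set_option autoImplicit false

namespace Pool.Agent.H77.AK

open Finset

/-- The lower bound with at most E bad increments, integer form. -/
theorem lower_int (k : ℕ) (hk : 1 ≤ k) : ∃ c : ℝ, 0 < c ∧ ∀ (N C E : ℕ), 1 ≤ N →
    ∀ (a : ℕ → ℤ) (A : Finset ℤ),
    (∀ d ∈ Finset.Icc 1 N, ∀ j ∈ Finset.range k, a d + (j : ℤ) * d ∈ A) →
    ((Finset.Ico 1 N).filter (fun d => a d + C < a (d + 1))).card ≤ E →
    c * ((N : ℝ) / (((C : ℝ) + k) * ((E : ℝ) + 1))) ^ (1 - 1 / (k : ℝ)) ≤ A.card := by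
  classical
  obtain ⟨c, hc, hc1, hcore⟩ := core k hk
  have hkR : (1 : ℝ) ≤ k := by exact_mod_cast hk
  have hθ0 : 0 ≤ 1 - 1 / (k : ℝ) := by
    rw [sub_nonneg, div_le_one (by positivity)]
    exact hkR
  have hθ1 : 1 - 1 / (k : ℝ) ≤ 1 := by
    have : 0 ≤ 1 / (k : ℝ) := by positivity
    linarith
  refine ⟨c / 2, by positivity, ?_⟩
  intro N C E hN a A hA hE
  have hNR : (1 : ℝ) ≤ (N : ℝ) := by exact_mod_cast hN
  have hne : A.Nonempty := ⟨_, hA 1 (Finset.mem_Icc.2 ⟨le_rfl, hN⟩) 0
    (Finset.mem_range.2 (by omega))⟩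
  have hM1 : (1 : ℝ) ≤ A.card := by exact_mod_cast hne.card_pos
  set B := (Finset.Ico 1 N).filter (fun d => a d + C < a (d + 1)) with hB
  set l := N / (E + 1) with hl
  have hden : (0 : ℝ) < ((C : ℝ) + k) * ((E : ℝ) + 1) := by positivity
  have hx : 0 ≤ (N : ℝ) / (((C : ℝ) + k) * ((E : ℝ) + 1)) := by positivity
  rcases Nat.eq_zero_or_pos l with hl0 | hl1
  · have h1 : N < E + 1 := by
      by_contra hcon
      push Not at hcon
      have := Nat.div_pos hcon (by omega : 0 < E + 1)
      omega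
    have h2 : (N : ℝ) ≤ (E : ℝ) + 1 := by exact_mod_cast h1.le
    have h3 : (N : ℝ) / (((C : ℝ) + k) * ((E : ℝ) + 1)) ≤ 1 := by
      rw [div_le_one hden]
      have : (1 : ℝ) ≤ (C : ℝ) + k := by
        have : (0 : ℝ) ≤ C := Nat.cast_nonneg _
        linarith
      nlinarith
    have h4 := Real.rpow_le_one hx h3 hθ0
    nlinarith
  · -- a window without bad increments
    have hlN : (E + 1) * l ≤ N := by
      rw [Nat.mul_comm]
      exact Nat.div_mul_le_self N (E + 1)
    have hwin : ∃ m ∈ Finset.range (E + 1), m ∉ B.image (fun d => (d - 1) / l) := by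
      by_contra hcon
      push Not at hcon
      have h1 : Finset.range (E + 1) ⊆ B.image (fun d => (d - 1) / l) := fun m hm => hcon m hm
      have h2 := Finset.card_le_card h1
      rw [Finset.card_range] at h2
      have h3 := (Finset.card_image_le (s := B) (f := fun d => (d - 1) / l))
      omega
    obtain ⟨m, hm, hmB⟩ := hwin
    have hmE : m + 1 ≤ E + 1 := Finset.mem_range.1 hm
    have hml : (m + 1) * l ≤ N := (Nat.mul_le_mul_right l hmE).trans hlN
    have hml' : (m + 1) * l = m * l + l := by ring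
    have hbound := hcore (C + k) (by omega) (1 + m * l) l hl1 a A
      (by
        intro d hd1 hd2
        have h1 : d ∉ B := by
          intro hdB
          apply hmB
          refine Finset.mem_image.2 ⟨d, hdB, ?_⟩
          apply le_antisymm
          · apply Nat.lt_succ_iff.1
            rw [Nat.div_lt_iff_lt_mul hl1]
            show d - 1 < (m + 1) * l
            omega
          · rw [Nat.le_div_iff_mul_le hl1]
            omega
        have h2 : ¬ (a d + C < a (d + 1)) := by
          intro h3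
          exact h1 (Finset.mem_filter.2 ⟨Finset.mem_Ico.2 ⟨by omega, by omega⟩, h3⟩)
        push Not at h2
        push_cast
        linarith)
      (by
        intro d hd1 hd2 j hj
        exact hA d (Finset.mem_Icc.2 ⟨by omega, by omega⟩) j (Finset.mem_range.2 hj))
    have h5 : (N : ℝ) ≤ 2 * ((E : ℝ) + 1) * l := by
      have h6 : N < (E + 1) * l + (E + 1) := by
        have := Nat.lt_div_mul_add (a := N) (by omega : 0 < E + 1)
        calc N < N / (E + 1) * (E + 1) + (E + 1) := this
          _ = (E + 1) * l + (E + 1) := by rw [hl]; ring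
      have h7 : N ≤ 2 * (E + 1) * l := by nlinarith
      exact_mod_cast h7
    have h6 : 1 / 2 * ((N : ℝ) / (((C : ℝ) + k) * ((E : ℝ) + 1))) ≤ (l : ℝ) / ((C + k : ℕ) : ℝ) := by
      push_cast
      have hCk : (0 : ℝ) < (C : ℝ) + k := by positivity
      rw [le_div_iff₀ hCk]
      have e : 1 / 2 * ((N : ℝ) / (((C : ℝ) + k) * ((E : ℝ) + 1))) * ((C : ℝ) + k) =
          (N : ℝ) / (2 * ((E : ℝ) + 1)) := by
        field_simp
      rw [e, div_le_iff₀ (by positivity)]
      linarith
    calc c / 2 * ((N : ℝ) / (((C : ℝ) + k) * ((E : ℝ) + 1))) ^ (1 - 1 / (k : ℝ))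
        = c * ((1 / 2 : ℝ) ^ (1 : ℝ) *
          ((N : ℝ) / (((C : ℝ) + k) * ((E : ℝ) + 1))) ^ (1 - 1 / (k : ℝ))) := by
          rw [Real.rpow_one]; ring
      _ ≤ c * ((1 / 2 : ℝ) ^ (1 - 1 / (k : ℝ)) *
          ((N : ℝ) / (((C : ℝ) + k) * ((E : ℝ) + 1))) ^ (1 - 1 / (k : ℝ))) := by
          apply mul_le_mul_of_nonneg_left _ hc.le
          apply mul_le_mul_of_nonneg_right _ (Real.rpow_nonneg hx _)
          exact Real.rpow_le_rpow_of_exponent_ge (by norm_num) (by norm_num) hθ1
      _ = c * (1 / 2 * ((N : ℝ) / (((C : ℝ) + k) * ((E : ℝ) + 1)))) ^ (1 - 1 / (k : ℝ)) := by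
          rw [← Real.mul_rpow (by norm_num) hx]
      _ ≤ c * ((l : ℝ) / ((C + k : ℕ) : ℝ)) ^ (1 - 1 / (k : ℝ)) := by
          apply mul_le_mul_of_nonneg_left _ hc.le
          exact Real.rpow_le_rpow (by positivity) h6 hθ0
      _ ≤ A.card := hbound

/-- The lower bound, both signs, natural numbers. -/
theorem lower_nat (k : ℕ) (hk : 1 ≤ k) : ∃ c : ℝ, 0 < c ∧ ∀ (N C E : ℕ), 1 ≤ N →
    ∀ (a : ℕ → ℕ) (A : Finset ℕ),
    (∀ d ∈ Finset.Icc 1 N, ∀ j ∈ Finset.range k, a d + j * d ∈ A) →
    (((Finset.Ico 1 N).filter (fun d => a d + C < a (d + 1))).card ≤ E ∨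
      ((Finset.Ico 1 N).filter (fun d => a (d + 1) + C < a d)).card ≤ E) →
    c * ((N : ℝ) / (((C : ℝ) + k) * ((E : ℝ) + 1))) ^ (1 - 1 / (k : ℝ)) ≤ A.card := by
  classical
  obtain ⟨c, hc, h⟩ := lower_int k hk
  refine ⟨c, hc, ?_⟩
  intro N C E hN a A hA hE
  rcases hE with hE | hE
  · have h1 := h N C E hN (fun d => (a d : ℤ)) (A.image (fun x : ℕ => (x : ℤ)))
      (by
        intro d hd j hj
        refine Finset.mem_image.2 ⟨a d + j * d, hA d hd j hj, ?_⟩
        push_cast
        ring)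
      (by
        refine le_trans (le_of_eq ?_) hE
        congr 1
        apply Finset.filter_congr
        intro d _
        constructor
        · intro h2; exact_mod_cast h2
        · intro h2; exact_mod_cast h2)
    rwa [Finset.card_image_of_injective _ (fun x y hxy => by exact_mod_cast hxy)] at h1
  · have h1 := h N C E hN (fun d => -(a d : ℤ) - ((k : ℤ) - 1) * d)
      (A.image (fun x : ℕ => -(x : ℤ)))
      (by
        intro d hd j hj
        have hj' := Finset.mem_range.1 hj
        refine Finset.mem_image.2 ⟨a d + (k - 1 - j) * d,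
          hA d hd (k - 1 - j) (Finset.mem_range.2 (by omega)), ?_⟩
        have e : ((k - 1 - j : ℕ) : ℤ) = (k : ℤ) - 1 - j := by omega
        push_cast [e]
        ring)
      (by
        refine le_trans (Finset.card_le_card ?_) hE
        intro d hd
        obtain ⟨h2, h3⟩ := Finset.mem_filter.1 hd
        refine Finset.mem_filter.2 ⟨h2, ?_⟩
        push_cast at h3
        have hkz : (1 : ℤ) ≤ k := by exact_mod_cast hk
        have h4 : ((a (d + 1) : ℤ)) + C < a d := by nlinarith
        exact_mod_cast h4)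
    rwa [Finset.card_image_of_injective _ (fun x y hxy => by
      have : (x : ℤ) = y := by
        have h2 : -(x : ℤ) = -(y : ℤ) := hxy
        linarith
      exact_mod_cast this)] at h1

end Pool.Agent.H77.AK
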